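import Pool.Agent.L0h7.RG.Stm

/-!
# Project RG: Laurent polynomial rings over regular rings are regular
-/

set_option autoImplicit false

open CategoryTheory

noncomputable section

namespace Pool.Agent.L0h60.RG

open Pool.Agent.L0h7.RG

theorem pd_le (hP : S_PEX) (A : Type) [Ring A] (M : Type) [AddCommGroup M] [Module A M] {n m : ℕ}
    (h : n ≤ m) (hM : PD A n M) : PD A m M := by
  induction m, h using Nat.le_induction with
  | base => exact hM
  | succ m _ ih => exact hP.2.1 A m M ih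

theorem cone_pd (hP : S_PEX) (B : Type) [Ring B] (N₁ N₀ M : Type) [AddCommGroup N₁] [Module B N₁]
    [AddCommGroup N₀] [Module B N₀] [AddCommGroup M] [Module B M] (f : N₁ →ₗ[B] N₀)
    (g : N₀ →ₗ[B] M) (hf : Function.Injective f) (hg : Function.Surjective g)
    (hfg : LinearMap.range f = LinearMap.ker g) (n : ℕ) (h0 : PD B (n + 1) N₀)
    (h1 : PD B n N₁) : PD B (n + 1) M := by
  obtain ⟨k, π, hπ, hk⟩ := h0
  refine ⟨k, g ∘ₗ π, hg.comp hπ, ?_⟩
  have hle : LinearMap.ker π ≤ LinearMap.ker (g ∘ₗ π) := by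
    intro x hx
    rw [LinearMap.mem_ker] at hx ⊢
    rw [LinearMap.comp_apply, hx, map_zero]
  let p : LinearMap.ker (g ∘ₗ π) →ₗ[B] LinearMap.range f :=
    LinearMap.codRestrict (LinearMap.range f) (π ∘ₗ (LinearMap.ker (g ∘ₗ π)).subtype) (by
      intro x
      rw [hfg, LinearMap.mem_ker]
      exact x.2)
  let q : LinearMap.ker (g ∘ₗ π) →ₗ[B] N₁ :=
    (LinearEquiv.ofInjective f hf).symm.toLinearMap ∘ₗ p
  refine hP.2.2 B n (LinearMap.ker π) (LinearMap.ker (g ∘ₗ π)) N₁ (Submodule.inclusion hle) q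
    (Submodule.inclusion_injective hle) ?_ ?_ hk h1
  · intro y
    obtain ⟨x, hx⟩ := hπ (f y)
    have hxk : x ∈ LinearMap.ker (g ∘ₗ π) := by
      rw [LinearMap.mem_ker, LinearMap.comp_apply, hx]
      have : f y ∈ LinearMap.ker g := by
        rw [← hfg]
        exact ⟨y, rfl⟩
      exact this
    refine ⟨⟨x, hxk⟩, ?_⟩
    show (LinearEquiv.ofInjective f hf).symm (p ⟨x, hxk⟩) = y
    rw [LinearEquiv.symm_apply_eq]
    refine Subtype.ext ?_
    exact hx
  · ext x
    constructor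
    · rintro ⟨y, rfl⟩
      rw [LinearMap.mem_ker]
      show (LinearEquiv.ofInjective f hf).symm (p (Submodule.inclusion hle y)) = 0
      rw [LinearEquiv.symm_apply_eq, map_zero]
      refine Subtype.ext ?_
      exact y.2
    · intro hx
      rw [LinearMap.mem_ker] at hx
      have hx' : (LinearEquiv.ofInjective f hf).symm (p x) = 0 := hx
      rw [LinearEquiv.symm_apply_eq, map_zero] at hx'
      have hx2 : π x.1 = 0 := congrArg Subtype.val hx'
      exact ⟨⟨x.1, hx2⟩, Subtype.ext rfl⟩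

/-- the group rings of the free group with one generator and of `ℤ` -/
def e1 (A : Type) [Ring A] :
    MonoidAlgebra A (Multiplicative ℤ) ≃+* MonoidAlgebra A (FreeGroup (Fin 1)) :=
  MonoidAlgebra.mapDomainRingEquiv A (FreeGroup.mulEquivIntOfUnique (α := Fin 1)).symm

theorem t_RGZ : S_PEX → S_IND → S_TRE → S_NOE → S_RIS → S_RGZ := by
  intro hP hI hT hN hR A _ hA
  refine hR (MonoidAlgebra A (FreeGroup (Fin 1))) (MonoidAlgebra A (Multiplicative ℤ))
    ⟨(e1 A).symm⟩ ?_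
  have hno : IsNoetherianRing (MonoidAlgebra A (FreeGroup (Fin 1))) := by
    have := hN A hA.1
    exact isNoetherianRing_of_ringEquiv _ (e1 A)
  refine ⟨hno, fun M _ _ hM => ?_⟩
  have hfp : Module.FinitePresentation (MonoidAlgebra A (FreeGroup (Fin 1))) M :=
    Module.finitePresentation_of_finite _ _
  obtain ⟨N₀, N₁, _, _, _, _, hN₀, hN₁, f, g, hf, hg, hfg⟩ := hT A hA.1 1 M hfp
  obtain ⟨n₀, h₀⟩ := hA.2 N₀ hN₀
  obtain ⟨n₁, h₁⟩ := hA.2 N₁ hN₁
  have h₀' := hI.1 A (FreeGroup (Fin 1)) n₀ N₀ h₀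
  have h₁' := hI.1 A (FreeGroup (Fin 1)) n₁ N₁ h₁
  refine ⟨max n₀ n₁ + 1, cone_pd hP _ _ _ M f g hf hg hfg (max n₀ n₁) ?_ ?_⟩
  · exact pd_le hP _ _ ((le_max_left _ _).trans (Nat.le_succ _)) h₀'
  · exact pd_le hP _ _ (le_max_right _ _) h₁'

end Pool.Agent.L0h60.RG
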