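import Pool.Agent.L0h7.RG.Stm

/-!
# Project RG: the boundary map of the Cayley tree of a free group is injective
-/

set_option autoImplicit false

open CategoryTheory

noncomputable section

namespace Pool.Agent.L0h60.RG

open Pool.Agent.L0h7.RG

/-- the length of a product with one letter -/
theorem norm_step {n : ℕ} (u : FreeGroup (Fin n)) (c : Fin n × Bool) :
    (FreeGroup.mk [c] * u).norm = u.norm + 1 ∨ ∃ tl, u.toWord = (c.1, !c.2) :: tl := by
  have h1 : FreeGroup.mk [c] * u = FreeGroup.mk (c :: u.toWord) := by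
    conv_lhs => rw [← FreeGroup.mk_toWord (x := u)]
    rfl
  have h2 : (FreeGroup.mk [c] * u).toWord = FreeGroup.reduce (c :: u.toWord) := by
    rw [h1]
    rfl
  rw [FreeGroup.reduce.cons, FreeGroup.reduce_toWord] at h2
  unfold FreeGroup.norm
  rw [h2]
  cases hu : u.toWord with
  | nil => left; rfl
  | cons hd tl =>
    by_cases h : c.1 = hd.1 ∧ c.2 = not hd.2
    · right
      refine ⟨tl, ?_⟩
      have : hd = (c.1, !c.2) := by
        refine Prod.ext h.1.symm ?_
        rw [h.2, Bool.not_not]
      rw [← this]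
    · left
      simp only [if_neg h, List.length_cons]

theorem out_norm {n : ℕ} (v : FreeGroup (Fin n)) (s : Fin n)
    (h : (v * FreeGroup.of s).norm ≤ v.norm) : ∃ tl, v⁻¹.toWord = (s, true) :: tl := by
  have h1 : (v * FreeGroup.of s).norm = (FreeGroup.mk [(s, false)] * v⁻¹).norm := by
    rw [← FreeGroup.norm_inv_eq, mul_inv_rev]
    rfl
  rcases norm_step v⁻¹ (s, false) with h2 | h2
  · rw [← h1, FreeGroup.norm_inv_eq] at h2
    omega
  · exact h2

theorem inc_norm {n : ℕ} (v : FreeGroup (Fin n)) (s : Fin n)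
    (h : (v * (FreeGroup.of s)⁻¹).norm ≤ v.norm) : ∃ tl, v⁻¹.toWord = (s, false) :: tl := by
  have h1 : (v * (FreeGroup.of s)⁻¹).norm = (FreeGroup.mk [(s, true)] * v⁻¹).norm := by
    rw [← FreeGroup.norm_inv_eq, mul_inv_rev, inv_inv]
    rfl
  rcases norm_step v⁻¹ (s, true) with h2 | h2
  · rw [← h1, FreeGroup.norm_inv_eq] at h2
    omega
  · exact h2

theorem t_TRA : S_TRA := by
  intro n M _ σ x hx
  by_contra hne
  have hsup : x.support.Nonempty := Finsupp.support_nonempty_iff.2 hne
  obtain ⟨e, he, hmax⟩ := x.support.exists_max_image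
    (fun e : FreeGroup (Fin n) × Fin n => max e.1.norm (e.1 * FreeGroup.of e.2).norm) hsup
  set L := max e.1.norm (e.1 * FreeGroup.of e.2).norm with hL
  have out : ∀ v : FreeGroup (Fin n), v.norm = L → ∀ s, x (v, s) ≠ 0 →
      ∃ tl, v⁻¹.toWord = (s, true) :: tl := by
    intro v hv s hs
    refine out_norm v s ?_
    have h1 := hmax (v, s) (Finsupp.mem_support_iff.2 hs)
    exact ((le_max_right _ _).trans h1).trans hv.ge
  have inc : ∀ v : FreeGroup (Fin n), v.norm = L → ∀ s, x (v * (FreeGroup.of s)⁻¹, s) ≠ 0 →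
      ∃ tl, v⁻¹.toWord = (s, false) :: tl := by
    intro v hv s hs
    refine inc_norm v s ?_
    have h1 := hmax (v * (FreeGroup.of s)⁻¹, s) (Finsupp.mem_support_iff.2 hs)
    exact ((le_max_left _ _).trans h1).trans hv.ge
  have he' : x (e.1, e.2) ≠ 0 := Finsupp.mem_support_iff.1 he
  rcases le_total e.1.norm (e.1 * FreeGroup.of e.2).norm with h | h
  · -- the end point is the maximal one
    have hv : (e.1 * FreeGroup.of e.2).norm = L := by rw [hL, max_eq_right h]
    set v := e.1 * FreeGroup.of e.2 with hvd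
    have hev : v * (FreeGroup.of e.2)⁻¹ = e.1 := by rw [hvd, mul_inv_cancel_right]
    have he2 : x (v * (FreeGroup.of e.2)⁻¹, e.2) ≠ 0 := by rw [hev]; exact he'
    obtain ⟨tl, htl⟩ := inc v hv e.2 he2
    have hr : ∑ s, σ (FreeGroup.of s) (x (v, s)) = 0 := by
      refine Finset.sum_eq_zero fun s _ => ?_
      by_cases hs : x (v, s) = 0
      · rw [hs, map_zero]
      · obtain ⟨tl', htl'⟩ := out v hv s hs
        rw [htl] at htl'
        have := (List.cons.inj htl').1
        simp at this
    have hl : ∑ s, x (v * (FreeGroup.of s)⁻¹, s) = x (v * (FreeGroup.of e.2)⁻¹, e.2) := by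
      refine Finset.sum_eq_single_of_mem e.2 (Finset.mem_univ _) fun s _ hs => ?_
      by_contra hne'
      obtain ⟨tl', htl'⟩ := inc v hv s hne'
      rw [htl] at htl'
      have := (List.cons.inj htl').1
      exact hs (congrArg Prod.fst this).symm
    have := hx v
    rw [hr, hl] at this
    exact he2 this
  · -- the initial point is the maximal one
    have hv : e.1.norm = L := by rw [hL, max_eq_left h]
    set v := e.1 with hvd
    obtain ⟨tl, htl⟩ := out v hv e.2 he'
    have hl : ∑ s, x (v * (FreeGroup.of s)⁻¹, s) = 0 := by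
      refine Finset.sum_eq_zero fun s _ => ?_
      by_contra hs
      obtain ⟨tl', htl'⟩ := inc v hv s hs
      rw [htl] at htl'
      have := (List.cons.inj htl').1
      simp at this
    have hr : ∑ s, σ (FreeGroup.of s) (x (v, s)) = σ (FreeGroup.of e.2) (x (v, e.2)) := by
      refine Finset.sum_eq_single_of_mem e.2 (Finset.mem_univ _) fun s _ hs => ?_
      by_cases hs' : x (v, s) = 0
      · rw [hs', map_zero]
      · obtain ⟨tl', htl'⟩ := out v hv s hs'
        rw [htl] at htl'
        have := (List.cons.inj htl').1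
        exact absurd (congrArg Prod.fst this).symm hs
    have h0 := hx v
    rw [hr, hl] at h0
    have h1 : σ (FreeGroup.of e.2)⁻¹ (σ (FreeGroup.of e.2) (x (v, e.2))) = x (v, e.2) := by
      have h2 : σ (FreeGroup.of e.2)⁻¹ * σ (FreeGroup.of e.2) = 1 := by
        rw [← map_mul, inv_mul_cancel, map_one]
      have h3 := congrArg (fun f : AddMonoid.End M => f (x (v, e.2))) h2
      exact h3
    rw [← h0, map_zero] at h1
    exact he' h1.symm

end Pool.Agent.L0h60.RG
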